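import Pool.Agent.FTU.Stmts
import Pool.Agent.Helper49_MBX.CNT

/-!
Squad FTU (MP_8cfbae_mp), row LAT: the lattice sum of `1 / |k|^2`.
-/

set_option autoImplicit false

noncomputable section

namespace Pool.Agent.FTU.H46

open Pool.Agent.Helper49_Pauli

/-- the integer vectors with entries at most `m` -/
def box (m : ℕ) : Finset (Fin 3 → ℤ) := Fintype.piFinset fun _ => Finset.Icc (-(m : ℤ)) m

theorem card_box (m : ℕ) : (box m).card = (2 * m + 1) ^ 3 := by
  unfold box
  rw [Fintype.card_piFinset_const, Int.card_Icc]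
  congr 1
  omega

theorem mem_box (m : ℕ) (n : Fin 3 → ℤ) : n ∈ box m ↔ ∀ j, (n j).natAbs ≤ m := by
  unfold box
  rw [Fintype.mem_piFinset]
  apply forall_congr'
  intro j
  rw [Finset.mem_Icc]
  omega

/-- the largest entry -/
def mx (n : Fin 3 → ℤ) : ℕ := Finset.univ.sup fun j => (n j).natAbs

theorem le_mx (n : Fin 3 → ℤ) (j : Fin 3) : (n j).natAbs ≤ mx n :=
  Finset.le_sup (f := fun j => (n j).natAbs) (Finset.mem_univ j)

theorem mx_att (n : Fin 3 → ℤ) : ∃ j, mx n = (n j).natAbs := by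
  obtain ⟨j, _, hj⟩ := Finset.exists_mem_eq_sup (Finset.univ : Finset (Fin 3)) ⟨0, by simp⟩
    (fun j => (n j).natAbs)
  exact ⟨j, hj⟩

theorem card_shell (s : Finset (Fin 3 → ℤ)) (m : ℕ) (hm : 1 ≤ m) (hs : ∀ n ∈ s, mx n = m) :
    s.card ≤ 26 * m ^ 2 := by
  obtain ⟨k, rfl⟩ : ∃ k, m = k + 1 := ⟨m - 1, by omega⟩
  have h1 : s ⊆ box (k + 1) \ box k := by
    intro n hn
    rw [Finset.mem_sdiff, mem_box, mem_box]
    refine ⟨fun j => by rw [← hs n hn]; exact le_mx n j, fun h => ?_⟩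
    obtain ⟨j, hj⟩ := mx_att n
    have h2 := hs n hn
    have h3 := h j
    omega
  have h2 : box k ⊆ box (k + 1) := by
    intro n hn
    rw [mem_box] at hn ⊢
    exact fun j => (hn j).trans (by omega)
  have h3 := Finset.card_le_card h1
  have h4 := Finset.card_sdiff_add_card_eq_card h2
  rw [card_box, card_box] at h4
  have h5 : (2 * (k + 1) + 1) ^ 3 = (2 * k + 1) ^ 3 + (24 * k ^ 2 + 48 * k + 26) := by ring
  have h6 : 26 * (k + 1) ^ 2 = 26 * k ^ 2 + 52 * k + 26 := by ring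
  have h7 : 24 * k ^ 2 ≤ 26 * k ^ 2 := Nat.mul_le_mul_right _ (by norm_num)
  omega

theorem lat : LatStmt := by
  refine ⟨26, by norm_num, ?_⟩
  intro cut L hc hL
  have hpi := Real.pi_pos
  have hpi3 := Real.pi_gt_three
  have hmem : ∀ n, n ∈ momenta cut L ↔ n ≠ 0 ∧ freq L n < cut :=
    Pool.Agent.Helper49_Pauli.latt.1 cut L hL
  set R : ℝ := L * cut / (2 * Real.pi) with hRdef
  have hR : 0 < R := by positivity
  set N : ℕ := ⌊R⌋₊ with hN
  have hNR : (N : ℝ) ≤ R := Nat.floor_le hR.le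
  have hform : ∀ n, freq L n = 2 * Real.pi / L * Real.sqrt (∑ j, (n j : ℝ) ^ 2) :=
    fun n => Pool.Agent.MBX.H49.freq_form hL n
  have hentry : ∀ n ∈ momenta cut L, ∀ j, (n j).natAbs ≤ N := by
    intro n hn j
    rw [hmem, hform] at hn
    have h2 : |(n j : ℝ)| ≤ Real.sqrt (∑ j, (n j : ℝ) ^ 2) := by
      apply Real.abs_le_sqrt
      exact Finset.single_le_sum (f := fun j => (n j : ℝ) ^ 2) (fun i _ => sq_nonneg _)
        (Finset.mem_univ j)
    have h3 : |(n j : ℝ)| < R := by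
      rw [hRdef, lt_div_iff₀ (by positivity)]
      have h4 := hn.2
      have h5 : 2 * Real.pi / L * |(n j : ℝ)| < cut := by
        refine lt_of_le_of_lt ?_ h4
        exact mul_le_mul_of_nonneg_left h2 (by positivity)
      rw [div_mul_eq_mul_div, div_lt_iff₀ hL] at h5
      linarith [mul_comm cut L, mul_comm (2 * Real.pi) |(n j : ℝ)|]
    have h6 : ((n j).natAbs : ℝ) ≤ R := by
      rw [Nat.cast_natAbs]
      push_cast
      exact h3.le
    exact Nat.le_floor h6
  have hmaps : ∀ n ∈ momenta cut L, mx n ∈ Finset.Icc 1 N := by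
    intro n hn
    rw [Finset.mem_Icc]
    constructor
    · obtain ⟨j, hj⟩ : ∃ j, n j ≠ 0 := by
        by_contra h
        push Not at h
        exact ((hmem n).1 hn).1 (funext h)
      have h1 := le_mx n j
      have h2 : 1 ≤ (n j).natAbs := by omega
      omega
    · obtain ⟨j, hj⟩ := mx_att n
      rw [hj]
      exact hentry n hn j
  have hterm : ∀ n ∈ momenta cut L, ∀ m : ℕ, 1 ≤ m → mx n = m →
      (cut / freq L n) ^ 2 ≤ R ^ 2 / (m : ℝ) ^ 2 := by
    intro n hn m hm hnm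
    obtain ⟨j, hj⟩ := mx_att n
    have hS : (m : ℝ) ^ 2 ≤ ∑ j, (n j : ℝ) ^ 2 := by
      have h1 : (m : ℝ) ^ 2 = (n j : ℝ) ^ 2 := by
        have h2 : (m : ℝ) = |(n j : ℝ)| := by
          rw [← hnm, hj, Nat.cast_natAbs]
          push_cast
          rfl
        rw [h2, sq_abs]
      rw [h1]
      exact Finset.single_le_sum (f := fun j => (n j : ℝ) ^ 2) (fun i _ => sq_nonneg _)
        (Finset.mem_univ j)
    have hm0 : (0 : ℝ) < (m : ℝ) ^ 2 := by positivity
    have hS0 : 0 < ∑ j, (n j : ℝ) ^ 2 := lt_of_lt_of_le hm0 hS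
    have h1 : (cut / freq L n) ^ 2 = R ^ 2 / ∑ j, (n j : ℝ) ^ 2 := by
      rw [hform, div_pow, mul_pow, Real.sq_sqrt hS0.le, hRdef]
      field_simp
    rw [h1]
    exact div_le_div_of_nonneg_left (by positivity) hm0 hS
  rw [← Finset.sum_fiberwise_of_maps_to hmaps]
  have hsum : ∑ m ∈ Finset.Icc 1 N, ∑ n ∈ momenta cut L with mx n = m, (cut / freq L n) ^ 2 ≤
      ∑ m ∈ Finset.Icc 1 N, 26 * R ^ 2 := by
    apply Finset.sum_le_sum
    intro m hm
    rw [Finset.mem_Icc] at hm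
    have h1 := Finset.sum_le_card_nsmul ((momenta cut L).filter fun n => mx n = m)
      (fun n => (cut / freq L n) ^ 2) (R ^ 2 / (m : ℝ) ^ 2) (fun n hn => by
        rw [Finset.mem_filter] at hn
        exact hterm n hn.1 m hm.1 hn.2)
    have h2 := card_shell ((momenta cut L).filter fun n => mx n = m) m hm.1 (fun n hn => by
      rw [Finset.mem_filter] at hn
      exact hn.2)
    have h3 : (((momenta cut L).filter fun n => mx n = m).card : ℝ) ≤ 26 * (m : ℝ) ^ 2 := by
      exact_mod_cast h2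
    rw [nsmul_eq_mul] at h1
    refine h1.trans ?_
    have hm1 : (0 : ℝ) < m := by
      exact_mod_cast hm.1
    have h4 : 26 * R ^ 2 = 26 * (m : ℝ) ^ 2 * (R ^ 2 / (m : ℝ) ^ 2) := by
      field_simp
    rw [h4]
    exact mul_le_mul_of_nonneg_right h3 (by positivity)
  refine hsum.trans ?_
  rw [Finset.sum_const, Nat.card_Icc, nsmul_eq_mul]
  have h1 : ((N + 1 - 1 : ℕ) : ℝ) = N := by
    congr 1
  rw [h1]
  have h2 : (N : ℝ) * (26 * R ^ 2) ≤ R * (26 * R ^ 2) :=
    mul_le_mul_of_nonneg_right hNR (by positivity)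
  have h3 : R ≤ L * cut := by
    rw [hRdef, div_le_iff₀ (by positivity)]
    have : 0 < L * cut := by positivity
    nlinarith
  have h4 : R ^ 3 ≤ (L * cut) ^ 3 := pow_le_pow_left₀ hR.le h3 3
  calc (N : ℝ) * (26 * R ^ 2) ≤ R * (26 * R ^ 2) := h2
    _ = 26 * R ^ 3 := by ring
    _ ≤ 26 * (L * cut) ^ 3 := by linarith

end Pool.Agent.FTU.H46
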